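import Pool.Agent.GT.StmtsF

/-!
# Squad GT, row F_HGT: the height on `W(ℚ)`
-/

set_option autoImplicit false

namespace Pool.Agent.GT.F.H79

open Polynomial Pool.Agent.NJ

noncomputable section

theorem vec2_eta (f : Fin 2 → ℚ) : ![f 0, f 1] = f := by
  funext i
  fin_cases i <;> rfl

theorem f_hgt (hPar : ParStmt) : HgtStmt := by
  intro _ W hW
  have hell : W.IsElliptic := ⟨isUnit_iff_ne_zero.mpr hW⟩
  refine ⟨?_, fun P => Height.logHeight_nonneg _, ?_⟩
  · obtain ⟨C₁, h₁⟩ := W.abs_logHeight_addSubMap_sub_two_mul_logHeight_le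
    obtain ⟨C₂, h₂⟩ := Height.abs_logHeight_sym2_sub_le ℚ
    have hs : ∀ P Q : W.toAffine.Point,
        |Height.logHeight (P.sym2x Q) - (ht P + ht Q)| ≤ C₂ := by
      intro P Q
      have hP : ![P.xRep 0, P.xRep 1] ≠ 0 := by
        rw [vec2_eta]; exact P.xRep_ne_zero
      have hQ : ![Q.xRep 0, Q.xRep 1] ≠ 0 := by
        rw [vec2_eta]; exact Q.xRep_ne_zero
      have h := h₂ hP hQ
      rw [vec2_eta, vec2_eta] at h
      exact h
    refine ⟨C₂ + C₁ + 2 * C₂, fun P Q => ?_⟩
    obtain ⟨c, hc, hcc⟩ := hPar ℚ W hW P Q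
    have e : (fun i => (W.addSubMap i).eval (P.sym2x Q)) =
        c • ((P + Q).sym2x (P - Q)) := by
      funext i
      rw [hcc i]
      rfl
    have h3 := h₁ (P.sym2x Q)
    rw [e, Height.logHeight_smul_eq_logHeight _ hc] at h3
    have h4 := hs P Q
    have h5 := hs (P + Q) (P - Q)
    rw [abs_le] at h3 h4 h5 ⊢
    constructor <;> linarith [h3.1, h3.2, h4.1, h4.2, h5.1, h5.2]
  · intro B
    have hfin : {x : ℚ | Height.logHeight₁ x ≤ B}.Finite := Northcott.finite_le B
    refine Set.Finite.of_finite_fibers (fun P : W.toAffine.Point => P.xRep) ?_ ?_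
    · refine Set.Finite.subset ((hfin.image (fun x : ℚ => (![x, 1] : Fin 2 → ℚ))).insert
        (![1, 0] : Fin 2 → ℚ)) ?_
      rintro _ ⟨P, hP, rfl⟩
      cases P with
      | zero => exact Or.inl rfl
      | some x y h =>
        refine Or.inr ⟨x, ?_, rfl⟩
        show Height.logHeight₁ x ≤ B
        rw [Height.logHeight₁_eq_logHeight]
        exact hP
    · rintro _ ⟨P, hP, rfl⟩
      refine Set.Finite.subset (Set.toFinite ({P, -P} : Set W.toAffine.Point)) ?_
      rintro Q ⟨-, hQ⟩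
      have hQ' : Q.xRep = P.xRep := hQ
      rcases WeierstrassCurve.Affine.Point.eq_or_eq_neg_of_xRep_eq_xRep hQ' with h | h
      · exact Or.inl h
      · exact Or.inr h

end

end Pool.Agent.GT.F.H79
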