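import Pool.Agent.GT.StmtsA

/-!
# Squad GT, row A_FND: dense insensitive sets contain subspaces (helper79)
-/

open Finset

namespace Pool.Agent.GT.H79

/-- equivalent words give equivalent words in a subspace -/
theorem eqv_sp {ι η : Type} {k : ℕ} (a : Fin k) (f : ι → Fin (k + 1) ⊕ η)
    {x y : η → Fin (k + 1)} (h : Eqv a x y) : Eqv a (sp f x) (sp f y) := by
  intro j
  unfold sp
  rcases f j with c | e
  · exact Or.inl rfl
  · exact h e

/-- row A_FND -/
theorem fnd (sam : SamStmt) : FndStmt := by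
  intro k hk hmd a m η hη
  obtain ⟨n', hn'⟩ := hmd m (η / 2) (half_pos hη)
  obtain ⟨n, hn⟩ := sam k n' (η / 2) hk (half_pos hη)
  refine ⟨n, ?_⟩
  intro ι _ hι D hD hcard
  classical
  obtain ⟨f₁, hf₁, hsum⟩ := hn ι hι (fun w => if w ∈ D then (1 : ℝ) else 0)
    (fun w => by split_ifs <;> norm_num) (fun w => by split_ifs <;> norm_num)
  have hD1 : (∑ w : ι → Fin (k + 1), (if w ∈ D then (1 : ℝ) else 0)) = D.card := by
    rw [Finset.sum_ite_mem, Finset.univ_inter, Finset.sum_const, nsmul_eq_mul, mul_one]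
  set B : Finset (Fin n' → Fin k) := univ.filter fun x => sp f₁ (cs x) ∈ D with hB
  have hB1 : (∑ x : Fin n' → Fin k, (if sp f₁ (cs x) ∈ D then (1 : ℝ) else 0)) = B.card := by
    rw [hB, Finset.sum_boole]
  rw [hD1, hB1] at hsum
  have hkpos : (0 : ℝ) < ((k : ℝ) + 1) ^ Fintype.card ι := by positivity
  have hkn : (0 : ℝ) < (k : ℝ) ^ n' := by
    have : (0 : ℝ) < k := by exact_mod_cast hk
    positivity
  have hdens : η ≤ (D.card : ℝ) / ((k : ℝ) + 1) ^ Fintype.card ι := by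
    rw [le_div_iff₀ hkpos]
    exact hcard
  have hBd : η / 2 ≤ (B.card : ℝ) / (k : ℝ) ^ n' := by linarith
  rw [le_div_iff₀ hkn] at hBd
  obtain ⟨g, hg, hgB⟩ := hn' (Fin n') (by simp) B (by rw [Fintype.card_fin]; exact hBd)
  refine ⟨cmp f₁ (up g), hf₁.cmp hg.up, fun y => ?_⟩
  have h1 : sp f₁ (cs (sp g (rp y a))) ∈ D := by
    have := hgB (rp y a)
    rw [hB, mem_filter] at this
    exact this.2
  rw [← sp_up_cs] at h1
  have h2 : Eqv a (sp f₁ (sp (up g) (cs (rp y a)))) (sp f₁ (sp (up g) y)) :=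
    eqv_sp a f₁ (eqv_sp a (up g) (eqv_rp y a).symm)
  rw [sp_cmp]
  exact hD _ _ h2 h1

end Pool.Agent.GT.H79
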