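import Pool.Agent.GT.StmtsE
import Pool.Agent.GT.StmtsD

/-!
# Squad GT, row E_GDP: at the good primes every unramified class is soluble
-/

set_option autoImplicit false

namespace Pool.Agent.GT.OF.H79

open Polynomial Pool.Agent.NJ Pool.Agent.GT.D

noncomputable section

theorem un_ndvd {q : ℕ} (hq : q.Prime) {n : ℤ} (hn : n ≠ 0) : ¬ (q : ℤ) ∣ un q n := by
  have : Fact q.Prime := ⟨hq⟩
  intro h
  have h1 : (q : ℤ) ^ padicValInt q n ∣ n := padicValInt_dvd n
  have h2 : (q : ℤ) ^ padicValInt q n * un q n = n := Int.mul_ediv_cancel' h1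
  have h3 : (q : ℤ) ^ (padicValInt q n + 1) ∣ n := by
    rw [pow_succ]
    calc (q : ℤ) ^ padicValInt q n * (q : ℤ) ∣ (q : ℤ) ^ padicValInt q n * un q n :=
          mul_dvd_mul_left _ h
      _ = n := h2
  rw [padicValInt_dvd_iff] at h3
  rcases h3 with h3 | h3
  · exact hn h3
  · omega

/-- two different roots differ by `± P k` -/
theorem rt_ndvd {q : ℕ} {P : Fin 3 → ℤ} (hs : P 0 + P 1 + P 2 = 0) (hP : ∀ i, ¬ (q : ℤ) ∣ P i)
    (i j : Fin 3) (hij : i ≠ j) : ¬ (q : ℤ) ∣ rt 1 P i - rt 1 P j := by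
  intro h
  have hc : ∀ i j : Fin 3, i ≠ j → j = i + 1 ∨ j = i + 2 := by decide
  replace hc := hc i j hij
  rcases hc with rfl | rfl
  · have h1 := (rt_sub (K := 1) hs i).1
    have h2 : rt 1 P i - rt 1 P (i + 1) = P (i + 2) := by linarith
    rw [h2] at h
    exact hP _ h
  · have h1 := (rt_sub (K := 1) hs i).2.1
    have h2 : rt 1 P i - rt 1 P (i + 2) = - P (i + 1) := by linarith
    rw [h2, dvd_neg] at h
    exact hP _ h

theorem cov_of {F : Type} [Field F] {P d : Fin 3 → ℤ} (hs : P 0 + P 1 + P 2 = 0) (z : Fin 3 → F)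
    (X : F) (hz : ∀ i, (d i : F) * z i ^ 2 = X - (rt 1 P i : F)) : Cov F P d := by
  refine ⟨z, 1, fun h => one_ne_zero h.2, fun i => ?_⟩
  rw [hz, hz]
  have h1 := (rt_sub (K := 1) hs i).2.2
  have h2 : (rt 1 P (i + 1) : F) - (rt 1 P (i + 2) : F) = (P i : F) := by
    have := congrArg (Int.cast : ℤ → F) h1
    push_cast at this
    rw [this]; ring
  linear_combination -h2

theorem e_gdp (hSqa : SqaStmt) (hFfd : FfdStmt) (hAdd : AddStmt) (hVal : ValStmt) : GdpStmt := by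
  intro q _ P d hq2 hs hP hd hsq hv
  have hq : q.Prime := Fact.out
  have hAv : Adf (vl q) := hAdd.1 q hq
  have hAu : Adf (ul q) := hAdd.2.1 q hq hq2
  have hu : ∀ i, ¬ (q : ℤ) ∣ un q (d i) := fun i => un_ndvd hq (hd i)
  have hu0 : ∀ i, un q (d i) ≠ 0 := fun i h => hu i (h ▸ dvd_zero _)
  have hull : ∀ i, ul q (un q (d i)) = ul q (d i) := by
    intro i
    have h1 := (hVal.1 q (un q (d i)) hq (hu i)).2
    unfold ul
    rw [h1]
  have hval : ∀ n : ℤ, ¬ (q : ℤ) ∣ n → (ul q n = 0 ↔ IsSquare ((n : ℤ) : ZMod q)) := by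
    intro n hn
    have h := hVal.2.2.1 q n hq hq2 hn
    constructor
    · intro h1
      by_contra h2
      rw [h.2 h2] at h1
      exact one_ne_zero h1
    · exact h.1
  have hqi : Prime (q : ℤ) := Nat.prime_iff_prime_int.mp hq
  -- the key step
  have key : ∀ (i : Fin 3) (n : ℤ), ¬ (q : ℤ) ∣ n →
      IsSquare (((un q (d i) : ℤ) : ZMod q) * ((n : ℤ) : ZMod q)) →
      ∃ z : ℚ_[q], (d i : ℚ_[q]) * z ^ 2 = (n : ℚ_[q]) := by
    intro i n hn hsn
    have hn0 : n ≠ 0 := fun h => hn (h ▸ dvd_zero _)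
    have h1 : vl q (d i * n) = 0 := by
      rw [hAv.mul _ _ (hd i) hn0, hv i, (hVal.1 q n hq hn).1, add_zero]
    have h2 : ul q (d i * n) = 0 := by
      rw [hAu.mul _ _ (hd i) hn0, ← hull i, ← hAu.mul _ _ (hu0 i) hn0, hval]
      · push_cast; exact hsn
      · intro h
        rcases hqi.dvd_or_dvd h with h | h
        · exact hu i h
        · exact hn h
    obtain ⟨s, hs'⟩ := hSqa q (d i * n) hq2 (mul_ne_zero (hd i) hn0) h1 h2
    have hdi : (d i : ℚ_[q]) ≠ 0 := by exact_mod_cast hd i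
    refine ⟨s / d i, ?_⟩
    push_cast at hs'
    rw [div_pow, sq s, ← hs']
    field_simp
  have hsc : IsSquare (((un q (d 0) : ℤ) : ZMod q) * ((un q (d 1) : ℤ) : ZMod q) *
      ((un q (d 2) : ℤ) : ZMod q)) := by
    have h1 : ul q (d 0 * d 1 * d 2) = 0 := by
      obtain ⟨s, h⟩ := hsq
      have h0 : s ≠ 0 := by
        rintro rfl
        rw [mul_zero] at h
        exact mul_ne_zero (mul_ne_zero (hd 0) (hd 1)) (hd 2) h
      rw [h]
      exact hAu.sq h0
    have h2 : ul q (un q (d 0) * un q (d 1) * un q (d 2)) = 0 := by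
      rw [hAu.mul _ _ (mul_ne_zero (hu0 0) (hu0 1)) (hu0 2), hAu.mul _ _ (hu0 0) (hu0 1),
        hull, hull, hull, ← hAu.mul _ _ (hd 0) (hd 1), ← hAu.mul _ _ (mul_ne_zero (hd 0) (hd 1)) (hd 2),
        h1]
    rw [hval] at h2
    · push_cast at h2; exact h2
    · intro h
      rcases hqi.dvd_or_dvd h with h | h
      · rcases hqi.dvd_or_dvd h with h | h
        · exact hu 0 h
        · exact hu 1 h
      · exact hu 2 h
  have hcast : ∀ n : ℤ, ((n : ℤ) : ZMod q) = 0 ↔ (q : ℤ) ∣ n := fun n =>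
    ZMod.intCast_zmod_eq_zero_iff_dvd n q
  rcases hFfd q (fun i => ((rt 1 P i : ℤ) : ZMod q)) (fun i => ((un q (d i) : ℤ) : ZMod q)) hq2
    (fun i j hij h => rt_ndvd hs hP i j hij (by
      rw [← hcast]; push_cast; exact sub_eq_zero.mpr h))
    (fun i h => hu i ((hcast _).mp h)) hsc with h | ⟨j, h⟩ | ⟨x, h⟩
  · choose z hz using fun i => key i 1 (fun h1 => hq.one_lt.ne' (by
      have := Int.eq_one_of_dvd_one (by positivity) h1
      exact_mod_cast this)) (by simpa using h i)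
    refine ⟨z, 0, ?_, fun i => ?_⟩
    · rintro ⟨h1, -⟩
      have h2 := hz 0
      rw [h1] at h2
      simp at h2
    · rw [hz, hz]
      simp
  · have : ∀ i, ∃ z : ℚ_[q], (d i : ℚ_[q]) * z ^ 2 = ((rt 1 P j : ℤ) : ℚ_[q]) - ((rt 1 P i : ℤ) : ℚ_[q]) := by
      intro i
      by_cases hi : i = j
      · subst hi
        exact ⟨0, by simp⟩
      · obtain ⟨z, hz⟩ := key i (rt 1 P j - rt 1 P i) (rt_ndvd hs hP j i (Ne.symm hi)) (by
          push_cast; exact h i hi)
        refine ⟨z, ?_⟩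
        rw [hz]; push_cast; ring
    choose z hz using this
    exact cov_of hs z _ hz
  · obtain ⟨X, rfl⟩ : ∃ X : ℤ, ((X : ℤ) : ZMod q) = x := ZMod.intCast_surjective x
    have : ∀ i, ∃ z : ℚ_[q], (d i : ℚ_[q]) * z ^ 2 = (X : ℚ_[q]) - ((rt 1 P i : ℤ) : ℚ_[q]) := by
      intro i
      obtain ⟨z, hz⟩ := key i (X - rt 1 P i) (fun h1 => (h i).1 (by
        have := (hcast _).mpr h1
        push_cast at this
        exact this)) (by push_cast; exact (h i).2)
      refine ⟨z, ?_⟩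
      rw [hz]; push_cast; ring
    choose z hz using this
    exact cov_of hs z _ hz

end

end Pool.Agent.GT.OF.H79
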